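import Pool.Agent.K4H91.CP.Main

/-!
# Convex programs for all-pairs shortest paths need a cubic number of constraints

The input is the weight matrix of a complete undirected graph.  The question is whether every edge
is a shortest path (metricity, a problem which is subcubically equivalent to all-pairs shortest
paths).  A convex program (`ConvexProgram` in `Pool.Agent.K4H91.CP.Prog`) has arbitrarily many
additional real variables, and its `l`-th constraint requires that `r l` affine forms of the
weights and of the additional variables, with arbitrary real coefficients, form a vector of an
arbitrary convex set `K l ⊆ ℝ ^ (r l)`.  It accepts a weight matrix if it is feasible for it.  So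
linear programs are the case `r l = 1`, second-order cone programs with cones in `ℝ ^ r` and
semidefinite programs with blocks of size `b` (`r = b ^ 2`), also with exponential or other cones,
are convex programs, and the sets `K l` can be chosen for the given number of vertices.

If such a program accepts all integral weight matrices with weights at most `900` in which
every edge is a shortest path, and rejects those in which some edge is by the factor `1.001` longer
than the distance of its ends, then `∑ l, 241 ^ (r l) ≥ n ^ 3 / (5.4 * 10 ^ 9)`.  In particular
the number of constraints is at least `n ^ 3 / C` if their dimensions `r l` are bounded, and
`n ^ (3 - o(1))` if they are `o(log n)`.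

Proof. The set of feasible additional variables is not compact and the sets `K l` need not be
closed, so there need not be a dual certificate for a rejected matrix; but if the additional
variables are restricted to a large box and `K l` is replaced by the convex hull of the finitely
many vectors which belong to accepted matrices, there is one, and it is an exact certificate up to
a small error at all accepted matrices.  So the slack matrix (rows: triples, columns: cuts) of the
starting theorem `LinearPrograms` is the sum of nonnegative matrices of ranks `r l + 1`, up to a
small relative error, and it remains to extend the corruption bound from rank one to rank `d`: if a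
matrix with entries in `[0, 1]` has rank `d`, then its columns `u` with `2 ^ j ≤ |u|_1 < 2 ^ (j + 1)`
have, by the volume argument in the `l_1` norm, a net of at most `241 ^ d` of these columns with
distances below `2 ^ j / 60`; for each of these columns the probability that a random cut cuts
4/5 of its weight is superpolynomially small in `2 ^ j`.
-/

set_option autoImplicit false

namespace Pool.Agent.Results.MP_885423_lc.ConvexPrograms

open Pool.Agent.TH697.Apsp Pool.Agent.K4H91.CP

/-- Let `n ≥ 3` and let `P` be a convex program with `m` constraints of dimensions `r l` in the
entries of an `n × n` matrix and in further variables.  If `P` accepts every weight matrix `w` of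
the complete graph on `n` vertices with integral weights in `{1, ..., 900}` which is its own
distance matrix, and rejects all those with `1001 * dist u v < 1000 * w u v` for some `u`, `v`, then
`n ^ 3 ≤ 5.4 * 10 ^ 9 * ∑ l, 241 ^ (r l)`. -/
theorem result (n m : ℕ) (hn : 3 ≤ n) (P : ConvexProgram (Fin n × Fin n) m)
    (hacc : ∀ w : Fin n → Fin n → ℕ, IsWeights n 900 w → (∀ u v, dist w u v = w u v) →
      P.Accepts (fun x => (w x.1 x.2 : ℝ)))
    (hrej : ∀ w : Fin n → Fin n → ℕ, IsWeights n 900 w →
      (∃ u v, 1001 * dist w u v < 1000 * w u v) → ¬ P.Accepts (fun x => (w x.1 x.2 : ℝ))) :
    n ^ 3 ≤ 5400000000 * ∑ l, 241 ^ (P.r l) :=
  lower hn P hacc hrej

end Pool.Agent.Results.MP_885423_lc.ConvexPrograms
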