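import Pool.Agent.K4H91.MG.Dist

/-!
# All-pairs shortest paths: minimum operations cannot be saved, even if everything smooth is free

A program computes real numbers from the weights of a complete directed graph. A gate is

* either a minimum of two earlier results; only these gates are counted,
* or free: an ARBITRARY real function `F (weights, earlier results)` of any number of arguments,
  which only has to be differentiable, with nonnegative partial derivatives in the earlier results,
  at the points where it is used (`LegalAt`). Nothing is demanded of the dependence on the weights
  besides differentiability: it need not be monotone. So sums, linear combinations (with arbitrary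
  real coefficients for the weights and nonnegative ones for the earlier results), products and
  powers of positive results, exponentials, arbitrary smooth functions of all the weights are free.

1. The min-plus product of an `a × m` and an `m × b` matrix needs exactly `a b (m - 1)` minimum gates,
   as many as the trivial algorithm uses.
2. Programs that compute all distances of the complete directed graphs with `N` vertices and positive
   real weights have at least `⌊N / 3⌋ ^ 2 (⌊N / 3⌋ - 1)` minimum gates.

For programs with the operations minimum and addition the number of minimum gates of the min-plus
product is a classical theorem (Kerr 1970, Jerrum and Snir 1982). `MonotoneRealPrograms` in this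
folder allows all nondecreasing functions but counts every operation with the number of its
arguments; here only minimum gates are counted, and the weights may be used in a nonmonotone way,
for instance by subtraction.

Proof. Take a point where all sums `x_{ik} + y_{kj}` are the same (and all other edges are long), and
the directional derivatives of all gates there. They are superlinear functions. A superlinear function
`G` is linear on the space `lin G` of the directions `u` with `G (u) + G (- u) = 0`; if a gate is used
with a positive derivative then its space contains the space of the result. The spaces of the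
outputs `(i, j)` and `(i', j')` together span everything, so a nonlinear minimum gate cannot be used
for both of them. On the other hand `r` nonlinear minimum gates are linear on a space of
codimension at most `r`, but the space of an output has codimension `m - 1`.
-/

set_option autoImplicit false

namespace Pool.Agent.Results.MP_885423_lc.MinimumGates

open Finset Pool.Agent.K4H91.MG

theorem result :
    -- 1. the min-plus product, lower bound
    (∀ (a m b s : ℕ), 1 ≤ m → ∀ g : ∀ i, Gate (Ent a m b) i,
      (∀ x : Ent a m b → ℝ, (∀ e, 0 < x e) → ∀ i < s, LegalAt g x i) →
      ∀ out : Fin a → Fin b → Fin s,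
      (∀ x : Ent a m b → ℝ, (∀ e, 0 < x e) → ∀ i j,
        val g x (out i j) = ⨅ k, (x (Sum.inl (i, k)) + x (Sum.inr (k, j)))) →
      a * b * (m - 1) ≤ ((range s).filter fun i => (g i).isMin = true).card) ∧
    -- upper bound
    (∀ a m b : ℕ, 1 ≤ m → ∃ (s : ℕ) (g : ∀ i, Gate (Ent a m b) i) (out : Fin a → Fin b → Fin s),
      (∀ x : Ent a m b → ℝ, ∀ i < s, LegalAt g x i) ∧
      (∀ (x : Ent a m b → ℝ) i j,
        val g x (out i j) = ⨅ k, (x (Sum.inl (i, k)) + x (Sum.inr (k, j)))) ∧
      ((range s).filter fun i => (g i).isMin = true).card = a * b * (m - 1)) ∧
    -- 2. all distances
    (∀ (N s : ℕ) (g : ∀ i, Gate (Fin N × Fin N) i),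
      (∀ w : Fin N × Fin N → ℝ, (∀ e, 0 < w e) → ∀ i < s, LegalAt g w i) →
      ∀ out : Fin N → Fin N → Fin s,
      (∀ w : Fin N × Fin N → ℝ, (∀ e, 0 < w e) → ∀ u v, u ≠ v →
        val g w (out u v) = walkDist w u v) →
      (N / 3) ^ 2 * (N / 3 - 1) ≤ ((range s).filter fun i => (g i).isMin = true).card) := by
  refine ⟨?_, ?_, ?_⟩
  · intro a m b s hm g hleg out hout
    obtain ⟨r, rfl⟩ : ∃ r, m = r + 1 := ⟨m - 1, by omega⟩
    exact minplus_lower g hleg out hout
  · intro a m b hm
    obtain ⟨r, rfl⟩ : ∃ r, m = r + 1 := ⟨m - 1, by omega⟩
    exact minplus_upper a r b
  · intro N s g hleg out hout
    rcases Nat.eq_zero_or_pos (N / 3) with h | h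
    · rw [h]
      simp
    · obtain ⟨r, hr⟩ : ∃ r, N / 3 = r + 1 := ⟨N / 3 - 1, by omega⟩
      have h2 := apsp (r := r) (by omega) g hleg out hout
      rw [hr, Nat.add_sub_cancel, pow_two]
      convert h2

end Pool.Agent.Results.MP_885423_lc.MinimumGates
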