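import Pool.Agent.K4H91.PM.Final

/-!
# Shortest paths need a cubic amount of data movement in the plane

The processors are the cells of the plane grid `ℤ × ℤ`. They have unlimited memory and computing
power and may be different from each other and nonuniform; only the messages between
neighbouring cells are counted. Each of the `n (n - 1)` weights of the complete directed graph is
given to some cell, different weights to different cells, otherwise the places of the weights are
arbitrary. The computer is nondeterministic (`Grid` and `Grid.Accepts` in
`Pool.Agent.K4H91.PM.Model`): an input is accepted with at most `T` messages if there is a set of at
most `T` messages such that each cell, seeing only its weight and the messages which it sends and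
receives, agrees. A message comprises its contents, its time and so on; there are finitely many
possible messages, so that a message has `log₂ (card Msg)` bits.

The theorem says: if exactly the weight matrices in which every edge is a shortest path are accepted,
with at most `T` messages, for weights `1`, `2`, `3`, then
`T * ⌈log₂ (card Msg + 1)⌉ ≥ n ^ 3 / 4300`. So all planar machines, for instance two-dimensional
arrays of processors, for any number of processors and any time, and for any layout of the input,
need `n ^ (3 - o(1))` messages of `n ^ o(1)` bits, and so this much time if the number of messages in
a unit of time is `n ^ o(1)`. The bound is sharp up to the logarithm, since the min-plus product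
can be computed on an `n × n` array in `O(n)` parallel steps.

Proof. Since the weights are in different cells, in one of the two directions there are at least
`(n - 2) / 2` lines with at least an eighth of the weights on both sides. If the pairs of vertices
are partitioned into two classes, both of which contain an eighth of the pairs, then for a positive
proportion of the paths `a, b, d` the pairs `(a, b)`, `(b, d)` are in different classes. The
inputs are obtained from bits `σ i k` for `i < m ≤ k < 2 m`, `m = n / 3`, by
`w i (i + 2 m) = 3`, `w i k = 1` if `σ i k`, `w k (i + 2 m) = 1` otherwise, other weights `2`, and by a
permutation of the vertices. The messages which cross a line determine the bits `σ i k` for which the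
line separates the two cells of `w i k` and `w k (i + 2 m)`, since otherwise a cut-and-paste argument
gives an accepted input with a path `i, k, i + 2 m` of length `2`. By averaging over all
permutations, all `σ` and all the lines some accepted input needs the stated number of messages.
-/

set_option autoImplicit false

namespace Pool.Agent.Results.MP_885423_lc.PlanarDataMovement

open Pool.Agent.K4H91.PM

/-- Let `n ≥ 112`, let `P` be a nondeterministic computer in the plane grid, and for `a ≠ b` let
`pos a b` be the cell which gets the weight of the edge from `a` to `b`, different cells for different
pairs. If all weight matrices `w` with weights `1`, `2`, `3` in which each edge is a shortest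
path are accepted with at most `T` messages, and no other matrix with these weights is accepted, then
`n ^ 3 ≤ 4300 * (T * ⌈log₂ (card Msg + 1)⌉)`. -/
theorem result (n : ℕ) (hn : 112 ≤ n) (P : Grid) (pos : Fin n → Fin n → ℤ × ℤ)
    (hpos : ∀ a b c d, a ≠ b → c ≠ d → pos a b = pos c d → a = c ∧ b = d) (T : ℕ)
    (hacc : ∀ w : Fin n → Fin n → ℕ, IsWeights w → AllShortest w → P.Accepts (inp pos w) T)
    (hsound : ∀ w : Fin n → Fin n → ℕ, IsWeights w → ¬ AllShortest w →
      ∀ T', ¬ P.Accepts (inp pos w) T') :
    n ^ 3 ≤ 4300 * (T * Nat.clog 2 (Fintype.card P.Msg + 1)) :=
  main hn P pos hpos T hacc hsound

end Pool.Agent.Results.MP_885423_lc.PlanarDataMovement
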