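import Pool.Agent.K4H91.TT.Main

/-!
# Decision trees for shortest paths: without tests on longer cycles there is no gain

The input is a complete undirected graph on `n` vertices with positive real weights. The question is
whether each edge is a shortest path, that is, whether the triangle inequality holds (metricity, a
problem which is subcubically equivalent to all-pairs shortest paths). A decision tree tests the signs
of ARBITRARY polynomials in the weights, of any degree. The only restriction is that the edges on
which a test depends contain at most one cycle, and that this cycle is a triangle (`Tame`); so a test
may depend on `n` weights. Tests which depend on a forest of edges are free; only the tests which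
depend on the edges of a triangle are counted.

Theorem: if a random tree of this kind has error probability at most `δ` on each input, then for some
input with the answer yes the expected number of the tests with a triangle is at least
`(1 - 2 δ) ⌊n / 3⌋ ^ 3`. So it is not possible to gain more than a constant factor against the trivial
algorithm, which compares `w (x, z)` with `w (x, y) + w (y, z)` for all triangles.

The restriction to cycles of length three is sharp: Fredman's decision tree (1976) uses `O (n ^ 2)`
triangle tests and `O (n ^ (5 / 2))` comparisons `w (i, k) - w (i, k') < w (j, k') - w (j, k)`
on cycles of length four. The theorem says that the subcubic number of tests is only due to the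
tests on cycles of length at least four, however complicated the other tests are.

Proof. Take a generic point of the linear space of the weights for which all triangle inequalities
between three classes of vertices are equations. On the edges of a forest such weights are independent,
and on a set of edges with one triangle there is only the equation of this triangle. So the sign of a
test near the point depends at most on the sign of the violation of the inequality of its triangle.
There are directions in which all inequalities become strict, and directions in which exactly one of
them becomes violated. A tree which answers correctly must have a test with this triangle.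
-/

set_option autoImplicit false

namespace Pool.Agent.Results.MP_885423_lc.TriangleTests

open Pool.Agent.K4H91.TT

open Classical in
theorem result (n : ℕ) (Ω : Type) [Fintype Ω] (p : Ω → ℝ) (hp : ∀ ω, 0 ≤ p ω)
    (hp1 : ∑ ω, p ω = 1) (t : Ω → Tree n) (ht : ∀ ω, (t ω).FewCycles) (δ : ℝ)
    (herr : ∀ w : Sym2 (Fin n) → ℝ, (∀ e, 0 < w e) →
      ∑ ω, (if ((t ω).run w = true ↔ AllShortest w) then 0 else p ω) ≤ δ) :
    ∃ w : Sym2 (Fin n) → ℝ, (∀ e, 0 < w e) ∧ AllShortest w ∧
      (1 - 2 * δ) * ((n / 3 : ℕ) : ℝ) ^ 3 ≤ ∑ ω, p ω * ((t ω).cost w : ℝ) := by
  have h := main p hp hp1 t ht δ (fun w hw hall => ?_) (fun w hw hall => ?_)
  · rw [card_tr] at h
    push_cast at h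
    exact h
  · refine le_trans (le_of_eq ?_) (herr w hw)
    refine Finset.sum_congr rfl fun ω _ => ?_
    simp [hall]
  · refine le_trans (le_of_eq ?_) (herr w hw)
    refine Finset.sum_congr rfl fun ω _ => ?_
    simp [hall]

end Pool.Agent.Results.MP_885423_lc.TriangleTests
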